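import Pool.Agent.U516.RD.Main

/-!
MP_75608d_al.  The diameter of the Cayley graph of `A_n` with respect to a fixed number of random
generators is almost surely at most `n ^ (1 + δ)`.

For every `δ > 0` there is `k₀` such that for every fixed `k ≥ k₀`: if `x_1, …, x_k` are independent
uniform elements of `A_n`, then with probability tending to `1` as `n → ∞` every element of `A_n` is
a product of at most `n ^ (1 + δ)` elements of `{x_1^{±1}, …, x_k^{±1}}`. The exponent cannot be
less than `1`, since `|A_n| = n! / 2`; the bound known before is `O(n ^ 2 (log n) ^ C)`.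

Proof.  The starting result `GapAllTuples` gives a uniform gap for the Schreier graphs on `r`-tuples,
`r ≤ n ^ (1 - δ')`.  So words of length `n` act transitively on `n ^ (1 - δ')`-tuples, and every
conjugate (in the symmetric group) of an element of support at most `n ^ (1 - δ')` is as cheap as the
element up to `2 n`.

* Small support.  The starting result `FewExceptionalEigenvalues` implies, by averaging over
  conjugates, that the lazy walk on `A_n` contracts all CLASS functions of mean zero exponentially
  fast down to `exp (- n ^ (1 - δ') / 2)`, although the gap on `A_n` itself is not known. So for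
  almost all `x_1` some word `w` of length `≤ n ^ δ'` in the other generators puts `x_1 w` in the
  conjugacy class with cycle lengths `ℓ, r` where `r ≈ n / 16`, `ℓ + r ≥ n - 1`, `r ∤ ℓ`, and then
  `(x_1 w) ^ ℓ` has support `r`.
* Reduction.  By the mixing on pairs, if `t` has support `s ≤ n / 8` some conjugate `t'` of `t` by a
  word of length `n ^ δ'` has `|supp [t, t']|` between `s ^ 2 / 4 n` and `6 s ^ 2 / n`. After
  `O(δ' log n)` such steps the support is between `n ^ (1 - 2 δ') / 16` and `n ^ (1 - δ')`, and
  the length has grown by a factor `n ^ (O(δ'))` only.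
* Involutions.  The product of `t` and the conjugate of `t⁻¹` by an involution on a set `Z` with
  `Z ∩ t Z = ∅` is an involution with support `Z ∪ t Z`; so all even involutions with support of size
  at most `n ^ (1 - 3 δ')` are cheap, and every even permutation is a product of two involutions,
  which are cut into `n ^ (O(δ'))` cheap ones.
-/

namespace Pool.Agent.Results.MP_75608d_al.Diameter
open Filter Topology

noncomputable section

/-- the diameter of the Cayley graph of `A_n` with respect to `{x_i, x_i⁻¹}` is at most `D`: every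
element of `A_n` is a product of at most `D` factors each of which is some `x_i` or `x_i⁻¹` -/
def DiamAtMost {n k : ℕ} (D : ℝ) (x : Fin k → alternatingGroup (Fin n)) : Prop :=
  ∀ g : alternatingGroup (Fin n), ∃ w : List (alternatingGroup (Fin n)),
    (w.length : ℝ) ≤ D ∧ (∀ y ∈ w, ∃ i, y = x i ∨ y = (x i)⁻¹) ∧ w.prod = g

theorem result (δ : ℝ) (hδ : 0 < δ) : ∃ k₀ : ℕ, ∀ k ≥ k₀,
    Tendsto (fun n : ℕ =>
      (Nat.card {x : Fin k → alternatingGroup (Fin n) // DiamAtMost ((n : ℝ) ^ (1 + δ)) x} : ℝ) /
        (Fintype.card (alternatingGroup (Fin n)) : ℝ) ^ k) atTop (𝓝 1) := by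
  obtain ⟨k₀, hk₀⟩ := RD516.main δ hδ
  refine ⟨k₀, fun k hk => ?_⟩
  have h := RD516.bad_of_tendsto (k := k) _ (hk₀ k hk)
  refine RD516.tendsto_of_bad (k := k) (fun n x => DiamAtMost ((n : ℝ) ^ (1 + δ)) x)
    fun e he => ?_
  filter_upwards [h e he] with n hn
  refine le_trans ?_ hn
  exact_mod_cast RC14.card_mono (fun x : Fin k → RC14.Alt n =>
      ¬ DiamAtMost ((n : ℝ) ^ (1 + δ)) x)
    (fun x => ¬ ∀ σ : Equiv.Perm (Fin n), Equiv.Perm.sign σ = 1 →
      ∃ D : ℕ, (D : ℝ) ≤ (n : ℝ) ^ (1 + δ) ∧ σ ∈ RD516.PB x D) (by
      intro x hx hcon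
      apply hx
      intro g
      obtain ⟨D, hD, w, h1, h2, h3⟩ := hcon (g : Equiv.Perm (Fin n)) g.2
      refine ⟨w, le_trans (by exact_mod_cast h1) hD, h2, Subtype.ext h3⟩)

end

end Pool.Agent.Results.MP_75608d_al.Diameter
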