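import Pool.Agent.U516.R3.FinK
import Pool.Agent.U516.R3.PkgST
import Pool.Agent.U516.R3.PkgCM
import Pool.Agent.U516.R3.PkgAMQ
import Pool.Agent.U516.R3.PkgTR
import Pool.Agent.U516.R3.PkgFF
import Pool.Agent.U516.R3.PkgNUQ
import Pool.Agent.U516.R3.PkgPR

/-!
MP_75608d_al.  The diameter of the Cayley graph of `A_n` with respect to `k` random generators, for
EVERY fixed `k ≥ 3`, is almost surely at most `n ^ (2 - κ_k + δ)`, where

  `κ_k = min ((k - 2) / (2 (k + 1))) ((k - 2) / (3 (k - 1)))`,

that is `15/8, 9/5, 7/4, 26/15, …` (`k = 3, 4, 5, 6, …`).  The best bound known before for three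
generators is the bound `O(n ^ 2 (log n) ^ C)` for random pairs.

Proof.  Let `x_1, x_2` be the base pair and `x_3, …, x_k` the `q = k - 2` amplifying elements.

* Gap.  Almost surely every nontrivial word of length `≤ n ^ (κ + o(1))` in the base pair has at most
  `n ^ (3 κ + o(1))` fixed points.  So, for an irreducible `W` of level `j ≤ n ^ κ`, the span of the
  eigenvectors of the walk of the base pair with eigenvalue `≥ θ` has dimension at most
  `n ^ ((3 κ + o(1)) j)` (trace on all functions on `j`-tuples) and at most
  `n ^ (- (1/2 - κ - o(1)) j) dim W` (characters). By Schur's lemma the projection `E` on it satisfies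
  `∑_z ‖E E^(z_1) ⋯ E^(z_q)‖² = |A_n| ^ q (tr E) ^ (q + 1) / (dim W) ^ q`, and an almost invariant
  vector of all generators forces a norm `≥ 1/2`. The product of the two bounds is summable over all
  types of irreducibles of all levels `≤ n ^ κ` if `κ < κ_k`.
* Small support.  The walk of the base pair on CLASS functions of `A_n` of mean zero decays down to
  `n ^ (-c)`; so for almost all `x_3` some word `w` of length `n ^ o(1)` in the base pair puts
  `g = x_3 w` in a conjugation invariant set of positive density, whose elements have a power `g ^ m`,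
  `m ≤ n`, with support between `n / 32` and `n / 8`.
* Reduction.  Commutators with random conjugates (mixing on pairs) square the density of the support:
  `O(log log n)` steps and a factor `O(log² n)` in the length lead to a support `≤ (M n) ^ (1/2)`,
  `M = n ^ κ`.  A commutator with a conjugate which is prescribed on about `M / 8` points (mixing on
  `M`-tuples) leads to a support between `M / 512` and `M`, with length `n ^ (1 + o(1))`.
* Involutions.  As words of length `n` are transitive on `M`-tuples, all even involutions of support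
  `≤ c M` cost `n ^ (1 + o(1))`, and every even permutation is a product of `O(n / M)` of them.
-/

namespace Pool.Agent.Results.MP_75608d_al.DiameterFewGenerators
open Filter Topology

noncomputable section

/-- the diameter of the Cayley graph of `A_n` with respect to `{x_i, x_i⁻¹}` is at most `D`: every
element of `A_n` is a product of at most `D` factors each of which is some `x_i` or `x_i⁻¹` -/
def DiamAtMost {n k : ℕ} (D : ℝ) (x : Fin k → alternatingGroup (Fin n)) : Prop :=
  ∀ g : alternatingGroup (Fin n), ∃ w : List (alternatingGroup (Fin n)),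
    (w.length : ℝ) ≤ D ∧ (∀ y ∈ w, ∃ i, y = x i ∨ y = (x i)⁻¹) ∧ w.prod = g

theorem result (k : ℕ) (hk : 3 ≤ k) (δ : ℝ) (hδ : 0 < δ) :
    Tendsto (fun n : ℕ =>
      (Nat.card {x : Fin k → alternatingGroup (Fin n) // DiamAtMost ((n : ℝ) ^
        (2 - min (((k : ℝ) - 2) / (2 * (k + 1))) (((k : ℝ) - 2) / (3 * (k - 1))) + δ)) x} : ℝ) /
        (Fintype.card (alternatingGroup (Fin n)) : ℝ) ^ k) atTop (𝓝 1) := by
  refine RD516.tendsto_of_bad (k := k) (fun n x => DiamAtMost ((n : ℝ) ^
        (2 - min (((k : ℝ) - 2) / (2 * (k + 1))) (((k : ℝ) - 2) / (3 * (k - 1))) + δ)) x)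
    fun e he => ?_
  filter_upwards [R3516.mainAll R3516.t_ST R3516.t_CM R3516.t_AMQ R3516.t_TR R3516.t_FF
    R3516.t_NUQ R3516.t_PR k hk δ hδ e he] with n hn
  refine le_trans ?_ hn
  refine Nat.cast_le.mpr (RC14.card_mono _ _ fun x hx hcon => hx ?_)
  intro g
  obtain ⟨D, hD, w, h1, h2, h3⟩ := hcon (g : Equiv.Perm (Fin n)) g.2
  refine ⟨w, le_trans (by exact_mod_cast h1) hD, h2, Subtype.ext h3⟩

end

end Pool.Agent.Results.MP_75608d_al.DiameterFewGenerators
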