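import Pool.Agent.U291.LG.Asy

/-!
MP_75608d_al.  A fixed number of random elements of `A_n` together with ONE more element of small
support has spectral gap at least `n ^ (-δ)`.

For every `δ > 0` there is `k₀` such that for every `k ≥ k₀`: if `x_1, …, x_k` are independent uniform
elements of `A_n` then with probability tending to `1`, for all further elements `u_1, …, u_m` of
`A_n`: if some product `g ≠ 1` of at most `ℓ` of the `x_i, u_j` and their inverses moves at most `n / 8`
points, then `x_1, …, x_k, u_1, …, u_m` generate `A_n` with spectral gap at least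
`n ^ (-δ) / (max m 1 * ℓ ^ 2)`.  For `m = ℓ = 1`: all the sets `{x_1, …, x_k, t}` with `t ≠ 1` moving at
most `n / 8` points have spectral gap at least `n ^ (-δ)`.

Proof.  (1) With the gap on tuples (starting result `GapAllTuples`) iterated commutators of `t` with
conjugates by short words bring the support down to three points, so that every three-cycle is a word of
length at most `D = n ^ (o(1))` in the generators.  (2) The starting result gives the gap for functions of
level at most `r = n ^ (1 - δ')`.  (3) A level inequality, proved here from scratch: a function `f` on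
`A_n` orthogonal to all functions of level at most `r` is moved by some three-cycle `c`:
`‖R(c) f - f‖² ≥ (4 / 3) (r + 1) / (n - 2) ‖f‖²`.  For its proof let `d_j` be the dimension of the vectors
fixed by the even permutations of `j` given points in an eigenspace `W` of the sum of the
three-cycles; the traces of `E_A E_B` for two such projections `E_A, E_B` are computed from
`E_A E_B E_A = s E_A + (1 - s) E_(A ∪ B)`, `s = 1 / (|A|)²` for `|A ∪ B| = |A| + 1`, and give a
quadratic inequality between `d_j, d_(j+1), d_(j+2)`; if the inequality fails, then it forces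
`d_(n - r) > 0`, that is, a nonzero function of level at most `r` in `W`.
-/

namespace Pool.Agent.Results.MP_75608d_al.RandomPlusSmallSupport
open RC14 Finset Filter Topology

noncomputable section

/-- `g` is a product of at most `ℓ` elements, each of them some `y_i` or `y_i⁻¹` -/
def IsWord {n K : ℕ} (y : Fin K → Alt n) (ℓ : ℕ) (g : Alt n) : Prop :=
  ∃ w : List (Alt n), w.length ≤ ℓ ∧ (∀ z ∈ w, ∃ i, z = y i ∨ z = (y i)⁻¹) ∧ w.prod = g

/-- for all `m, ℓ` and all further elements `u_1, …, u_m`: if some word `g ≠ 1` of length at most `ℓ` in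
the `x_i, u_j` moves at most `n / 8` points, then the `x_i, u_j` generate `A_n` and their random walk
has spectral gap at least `n ^ (-δ) / (max m 1 * ℓ ^ 2)` -/
def Robust (n : ℕ) {k : ℕ} (δ : ℝ) (x : Fin k → Alt n) : Prop :=
  ∀ (m ℓ : ℕ) (u : Fin m → Alt n) (g : Alt n), IsWord (Fin.append x u) ℓ g → g ≠ 1 →
    8 * #(g : Equiv.Perm (Fin n)).support ≤ n →
      Expanding ((n : ℝ) ^ (-δ) / ((max m 1 : ℕ) * (ℓ : ℝ) ^ 2)) (Fin.append x u)

theorem result (δ : ℝ) (hδ : 0 < δ) : ∃ k₀ : ℕ, ∀ k ≥ k₀,
    Tendsto (fun n : ℕ => (Nat.card {x : Fin k → Alt n // Robust n δ x} : ℝ) /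
      (Fintype.card (Alt n) : ℝ) ^ k) atTop (𝓝 1) := by
  have hd0 : 0 < min (δ / 16) (1 / 4 : ℝ) := lt_min (by linarith) (by norm_num)
  obtain ⟨k₀, hk₀⟩ := GapAllTuples.result (min (δ / 16) (1 / 4)) hd0
  refine ⟨k₀ + 1, fun k hk => ?_⟩
  obtain ⟨εa, hεa, hlim⟩ := hk₀ k (by omega)
  set ε : ℝ := min εa 1 with hε
  have h1 : 0 < ε := lt_min hεa one_pos
  have h2 : ε ≤ 1 := min_le_right _ _
  have h3 : ε ≤ εa := min_le_left _ _
  refine RD516.tendsto_of_bad (fun n (x : Fin k → Alt n) => Robust n δ x) fun e he => ?_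
  filter_upwards [RD516.bad_of_tendsto _ hlim e he, LG291.ev_one δ hδ k (by omega) ε h1 h2,
    eventually_ge_atTop 1] with n hn hev hn1
  have hn0 : (0 : ℝ) < n := by exact_mod_cast hn1
  refine le_trans ?_ hn
  exact_mod_cast RC14.card_mono (fun x : Fin k → Alt n => ¬ Robust n δ x) (fun x =>
    ¬ GapAllTuples.GapUpTo n ⌊(n : ℝ) ^ (1 - min (δ / 16) (1 / 4))⌋₊ εa x) (by
    intro x hx hcon
    apply hx
    obtain ⟨h4, h5⟩ := hev x (fun f hf hf0 => by
      refine (hcon.1 f hf hf0).trans ?_
      have h6 : 0 ≤ ∑ g, f g ^ 2 := sum_nonneg fun g _ => sq_nonneg _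
      gcongr) (fun s hs => RD516.tgap_mono h3 (hcon.2 s hs))
    rintro m ℓ u g ⟨w, hw1, hw2, hw3⟩ hg1 h8
    have h6 := LG291.more (x := x) (by positivity) h5 (m := m) (ℓ := ℓ) (by omega) (u := u)
      (g := g) ⟨w, hw1, hw2, by rw [hw3]⟩ hg1 h8
    refine LG291.expanding_mono ?_ h6
    rcases Nat.eq_zero_or_pos ℓ with h0 | h0
    · rw [h0]
      simp
    have h7 : (0 : ℝ) < (max m 1 : ℕ) := by
      have : 0 < max m 1 := by omega
      exact_mod_cast this
    have h8 : (0 : ℝ) < ℓ := by exact_mod_cast h0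
    have h9 : (m : ℝ) + 1 ≤ 2 * (max m 1 : ℕ) := by
      have : m + 1 ≤ 2 * max m 1 := by omega
      exact_mod_cast this
    rw [div_le_div_iff₀ (by positivity) (by positivity)]
    calc (n : ℝ) ^ (-δ) * (2 * (m + 1) * (ℓ : ℝ) ^ 2)
        ≤ (n : ℝ) ^ (-δ) * (2 * (2 * (max m 1 : ℕ)) * (ℓ : ℝ) ^ 2) := by gcongr
      _ = (4 * (n : ℝ) ^ (-δ)) * ((max m 1 : ℕ) * (ℓ : ℝ) ^ 2) := by ring
      _ ≤ (n : ℝ) ^ (-(δ / 2)) * ((max m 1 : ℕ) * (ℓ : ℝ) ^ 2) := by gcongr)

end

end Pool.Agent.Results.MP_75608d_al.RandomPlusSmallSupport
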