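import Pool.Agent.U291.LG.Asy

/-!
MP_75608d_al.  The spectral gap of a fixed number of random generators of `A_n` is at least
`n ^ (-(2 + δ))`: for every `δ > 0` there is `k₀` such that for every `k ≥ k₀`, with probability tending
to `1`, `k` independent uniform elements of `A_n` form an `n ^ (-(2 + δ))`-expanding generating set.

Proof: with probability tending to `1` every element of `A_n` is a word of length at most
`n ^ (1 + δ')` (the diameter theorem of `Diameter.lean`), a function of mean zero is moved by some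
element of `A_n` by at least its norm times `√2`, and a word of length `D` moves it by at most `D` times
the largest move by a letter.
-/

namespace Pool.Agent.Results.MP_75608d_al.SpectralGapExponentTwo
open RC14 Finset Filter Topology
open scoped InnerProductSpace

noncomputable section

/-- if all even permutations are words of length at most `D`, then the gap is at least `1 / (k D²)` -/
lemma gap_of_words {n k D : ℕ} (hk : 1 ≤ k) (hD : 1 ≤ D) {x : Fin k → Alt n}
    (h : ∀ g : Alt n, (g : Equiv.Perm (Fin n)) ∈ RD516.PB x D) :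
    Expanding (1 / ((k : ℝ) * (D : ℝ) ^ 2)) x := by
  have hk' : (0 : ℝ) < k := by exact_mod_cast hk
  have hD' : (0 : ℝ) < D := by exact_mod_cast hD
  refine ⟨LG291.generate (fun g _ => h g), fun f hf => ?_⟩
  set F : LG291.FV n := WithLp.toLp 2 f with hF
  have e1 := LG291.energy hk x F
  rw [LG291.inner_PW, LG291.norm_FV] at e1
  set S : ℝ := ∑ i, ‖LG291.reg n (x i) F - F‖ ^ 2 with hS
  have hS0 : 0 ≤ S := sum_nonneg fun i _ => by positivity
  have h1 : ∀ g : Alt n, ‖LG291.reg n g F - F‖ ^ 2 ≤ (D : ℝ) ^ 2 * S := by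
    intro g
    have h4 : ∀ i, ‖LG291.reg n (x i) F - F‖ ≤ Real.sqrt S := by
      intro i
      apply Real.le_sqrt_of_sq_le
      rw [hS]
      exact single_le_sum (f := fun i => ‖LG291.reg n (x i) F - F‖ ^ 2)
        (fun i _ => by positivity) (mem_univ i)
    have h5 := LG291.word_PB x F (Real.sqrt_nonneg _) h4 (h g)
    calc ‖LG291.reg n g F - F‖ ^ 2 ≤ (D * Real.sqrt S) ^ 2 :=
          pow_le_pow_left₀ (norm_nonneg _) h5 2
      _ = (D : ℝ) ^ 2 * S := by rw [mul_pow, Real.sq_sqrt hS0]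
  -- the average over the group
  have hcard : (0 : ℝ) < Fintype.card (Alt n) := by exact_mod_cast Fintype.card_pos
  have h2 : ∑ g : Alt n, ⟪LG291.reg n g F, F⟫_ℝ = 0 := by
    have h3 : ∀ g : Alt n, ⟪LG291.reg n g F, F⟫_ℝ = ∑ a, f (a * g) * f a := fun g =>
      LG291.inner_FV _ _
    rw [sum_congr rfl fun g _ => h3 g, sum_comm]
    refine sum_eq_zero fun a _ => ?_
    rw [← sum_mul]
    have h4 : ∑ g, f (a * g) = ∑ g, f g := Equiv.sum_comp (Equiv.mulLeft a) f
    rw [h4, hf, zero_mul]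
  have h3 : ∑ g : Alt n, ‖LG291.reg n g F - F‖ ^ 2 =
      2 * Fintype.card (Alt n) * ∑ a, f a ^ 2 := by
    have h4 : ∀ g : Alt n, ‖LG291.reg n g F - F‖ ^ 2 =
        2 * ∑ a, f a ^ 2 - 2 * ⟪LG291.reg n g F, F⟫_ℝ := fun g => by
      rw [LG291.norm_sub, LG291.norm_FV]
      ring
    have h5 : ∑ g : Alt n, 2 * ⟪LG291.reg n g F, F⟫_ℝ = 0 := by rw [← mul_sum, h2, mul_zero]
    rw [sum_congr rfl fun g _ => h4 g, sum_sub_distrib, h5, sum_const, card_univ, nsmul_eq_mul]
    ring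
  have h4 : 2 * (Fintype.card (Alt n) : ℝ) * ∑ a, f a ^ 2 ≤
      Fintype.card (Alt n) * ((D : ℝ) ^ 2 * S) := by
    rw [← h3]
    have := sum_le_card_nsmul (univ : Finset (Alt n)) (fun g => ‖LG291.reg n g F - F‖ ^ 2)
      ((D : ℝ) ^ 2 * S) (fun g _ => h1 g)
    rwa [card_univ, nsmul_eq_mul] at this
  have h5 : 2 * ∑ a, f a ^ 2 ≤ (D : ℝ) ^ 2 * S := by
    have : (Fintype.card (Alt n) : ℝ) * (2 * ∑ a, f a ^ 2) ≤
        Fintype.card (Alt n) * ((D : ℝ) ^ 2 * S) := by linarith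
    exact le_of_mul_le_mul_left this hcard
  have e2 : ∑ a, f a ^ 2 - ∑ a, f a * walk x f a = S / (2 * k) := e1
  have h6 : 1 / ((k : ℝ) * (D : ℝ) ^ 2) * ∑ a, f a ^ 2 ≤ S / (2 * k) := by
    rw [div_mul_eq_mul_div, one_mul, div_le_div_iff₀ (by positivity) (by positivity)]
    calc (∑ a, f a ^ 2) * (2 * (k : ℝ)) = k * (2 * ∑ a, f a ^ 2) := by ring
      _ ≤ k * ((D : ℝ) ^ 2 * S) := by gcongr
      _ = S * (k * (D : ℝ) ^ 2) := by ring
  linarith

theorem result (δ : ℝ) (hδ : 0 < δ) : ∃ k₀ : ℕ, ∀ k ≥ k₀,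
    Tendsto (fun n : ℕ => (Nat.card {x : Fin k → Alt n // Expanding ((n : ℝ) ^ (-(2 + δ))) x} : ℝ) /
      (Fintype.card (Alt n) : ℝ) ^ k) atTop (𝓝 1) := by
  obtain ⟨k₀, hk₀⟩ := RD516.main (δ / 4) (by linarith)
  refine ⟨k₀ + 1, fun k hk => ?_⟩
  have hk1 : 1 ≤ k := by omega
  have hk' : (0 : ℝ) < k := by exact_mod_cast hk1
  refine RD516.tendsto_of_bad
    (fun n (x : Fin k → Alt n) => Expanding ((n : ℝ) ^ (-(2 + δ))) x) fun e he => ?_
  filter_upwards [RD516.bad_of_tendsto _ (hk₀ k (by omega)) e he, ev_const (δ / 2) k (by linarith),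
    eventually_ge_atTop 1] with n hn hkn hn1
  have hn1' : (1 : ℝ) ≤ n := by exact_mod_cast hn1
  have hn0 : (0 : ℝ) < n := by linarith
  refine le_trans ?_ hn
  exact_mod_cast RC14.card_mono (fun x : Fin k → Alt n => ¬ Expanding ((n : ℝ) ^ (-(2 + δ))) x)
    (fun x => ¬ ∀ σ : Equiv.Perm (Fin n), Equiv.Perm.sign σ = 1 →
      ∃ D : ℕ, (D : ℝ) ≤ (n : ℝ) ^ (1 + δ / 4) ∧ σ ∈ RD516.PB x D) (by
    intro x hx hcon
    apply hx
    have h1 : (1 : ℝ) ≤ (n : ℝ) ^ (1 + δ / 4) := Real.one_le_rpow hn1' (by linarith)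
    set D : ℕ := ⌊(n : ℝ) ^ (1 + δ / 4)⌋₊ with hD
    have hD1 : 1 ≤ D := Nat.le_floor (by exact_mod_cast h1)
    have hDle : (D : ℝ) ≤ (n : ℝ) ^ (1 + δ / 4) := Nat.floor_le (by positivity)
    have hD0 : (0 : ℝ) < D := by exact_mod_cast hD1
    refine LG291.expanding_mono ?_ (gap_of_words hk1 hD1 (x := x) fun g => ?_)
    · rw [Real.rpow_neg hn0.le, ← one_div]
      apply one_div_le_one_div_of_le (by positivity)
      have h2 : (D : ℝ) ^ 2 ≤ (n : ℝ) ^ (2 + δ / 2) := by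
        calc (D : ℝ) ^ 2 ≤ ((n : ℝ) ^ (1 + δ / 4)) ^ 2 := pow_le_pow_left₀ hD0.le hDle 2
          _ = (n : ℝ) ^ (2 + δ / 2) := by
            rw [← Real.rpow_natCast, ← Real.rpow_mul hn0.le]
            congr 1
            push_cast
            ring
      calc (k : ℝ) * (D : ℝ) ^ 2 ≤ (n : ℝ) ^ (δ / 2) * (n : ℝ) ^ (2 + δ / 2) := by gcongr
        _ = (n : ℝ) ^ (2 + δ) := by
          rw [← Real.rpow_add hn0]
          congr 1
          ring
    · obtain ⟨D', h3, h4⟩ := hcon g (Equiv.Perm.mem_alternatingGroup.1 g.2)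
      exact RD516.PB.mono (Nat.le_floor h3) h4)

end

end Pool.Agent.Results.MP_75608d_al.SpectralGapExponentTwo
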